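import Pool.Agent.U36.SD.Stm

/-!
# Project SD, package GEN (helper61): the zero density lemma for all extensions
-/

set_option autoImplicit false

open NumberField IsDedekindDomain

namespace Pool.Agent.U61.SD

open Pool.Agent.U36.SD Pool.Agent.U36.DN

lemma not_pow {L E : Type} [Field L] [Field E] [Algebra L E] [FiniteDimensional L E] (c : L)
    {ℓ : ℕ} (hℓ : 0 < ℓ) (hd : Module.finrank L E ∣ ℓ - 1) (hc : ∀ x : L, x ^ ℓ ≠ c) :
    ∀ x : E, x ^ ℓ ≠ algebraMap L E c := by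
  intro x hx
  have hc0 : c ≠ 0 := by
    rintro rfl
    exact hc 0 (zero_pow hℓ.ne')
  obtain ⟨e, he⟩ := hd
  have h1 : (Algebra.norm L x) ^ ℓ = c ^ Module.finrank L E := by
    rw [← map_pow, hx, Algebra.norm_algebraMap]
  have hN : Algebra.norm L x ≠ 0 := by
    intro h0
    rw [h0, zero_pow hℓ.ne'] at h1
    exact pow_ne_zero _ hc0 h1.symm
  refine hc (c / (Algebra.norm L x) ^ e) ?_
  rw [div_pow, ← pow_mul, mul_comm e ℓ, pow_mul, h1, ← pow_mul, ← he]
  rw [div_eq_iff (pow_ne_zero _ hc0), ← pow_succ', Nat.sub_add_cancel hℓ]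

lemma fib_finite {L E : Type} [Field L] [NumberField L] [Field E] [NumberField E] [Algebra L E]
    (w : HeightOneSpectrum (𝓞 L)) :
    {P : HeightOneSpectrum (𝓞 E) | P.under (𝓞 L) = w}.Finite := by
  have hmax : w.asIdeal.IsMaximal := w.isPrime.isMaximal w.ne_bot
  have h1 := IsDedekindDomain.primesOver_finite w.asIdeal (𝓞 E)
  refine Set.Finite.of_finite_image (f := fun P : HeightOneSpectrum (𝓞 E) => P.asIdeal)
    (h1.subset ?_) (fun v _ w _ hvw => HeightOneSpectrum.ext hvw)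
  rintro _ ⟨P, hP, rfl⟩
  have hP' : P.under (𝓞 L) = w := hP
  exact ⟨P.isPrime, ⟨by rw [← hP']; rfl⟩⟩

lemma exists_above {L E : Type} [Field L] [NumberField L] [Field E] [NumberField E] [Algebra L E]
    (w : HeightOneSpectrum (𝓞 L)) : ∃ P : HeightOneSpectrum (𝓞 E), P.under (𝓞 L) = w := by
  have hmax : w.asIdeal.IsMaximal := w.isPrime.isMaximal w.ne_bot
  obtain ⟨P, hP, hl⟩ := Ideal.exists_maximal_ideal_liesOver_of_isIntegral (S := 𝓞 E) w.asIdeal
  have hbot : P ≠ ⊥ := by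
    rintro rfl
    apply w.ne_bot
    rw [hl.over]
    exact Ideal.under_bot (A := 𝓞 L) (B := 𝓞 E)
  exact ⟨⟨P, hP.isPrime, hbot⟩, HeightOneSpectrum.ext hl.over.symm⟩

theorem gen_of (hDEN : S_DEN) (K L E : Type) [Field K] [NumberField K] [Field L] [NumberField L]
    [Field E] [NumberField E] [Algebra K L] [Algebra L E] [Algebra K E] [IsScalarTower K L E]
    [IsGalois K E] (S : Set (HeightOneSpectrum (𝓞 L))) (D : Set ℕ) (hD : Fat D)
    (hm : ∀ ℓ ∈ D, Module.finrank K E ∣ ℓ - 1) (B : ℕ)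
    (h : ∀ ℓ ∈ D, B < ℓ → ∃ c : 𝓞 L, (∀ x : L, x ^ ℓ ≠ c) ∧
      ∃ T : Set (HeightOneSpectrum (𝓞 L)), T.Finite ∧
        ∀ w ∈ S, w ∉ T → ∃ t : 𝓞 L, c - t ^ ℓ ∈ w.asIdeal) : KDZ K S := by
  have h1 : KDZ K {P : HeightOneSpectrum (𝓞 E) | P.under (𝓞 L) ∈ S} := by
    refine hDEN K E _ D hD hm B fun ℓ hℓ hB => ?_
    obtain ⟨c, hc, T, hT, hw⟩ := h ℓ hℓ hB
    have hd : Module.finrank L E ∣ ℓ - 1 := by
      refine Dvd.dvd.trans ?_ (hm ℓ hℓ)
      rw [← Module.finrank_mul_finrank K L E]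
      exact Dvd.intro_left _ rfl
    refine ⟨algebraMap (𝓞 L) (𝓞 E) c, fun x => ?_, {P | P.under (𝓞 L) ∈ T}, ?_, ?_⟩
    · exact not_pow (c : L) (by omega) hd hc x
    · exact Set.Finite.preimage' hT fun w _ => fib_finite w
    · intro P hP hPT
      obtain ⟨t, ht⟩ := hw _ hP hPT
      refine ⟨algebraMap (𝓞 L) (𝓞 E) t, ?_⟩
      rw [← map_pow, ← map_sub]
      exact ht
  refine DZ.mono h1 ?_
  rintro v ⟨w, hw, hv⟩
  obtain ⟨P, hP⟩ := exists_above (E := E) w
  refine ⟨P, by rw [Set.mem_ofPred_eq, hP]; exact hw, ?_⟩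
  rw [← hv, ← hP]
  show _ = Ideal.comap (algebraMap (𝓞 K) (𝓞 L)) (Ideal.comap (algebraMap (𝓞 L) (𝓞 E)) P.asIdeal)
  rw [Ideal.comap_comap, ← IsScalarTower.algebraMap_eq]

theorem t_GEN (hDEN : S_DEN) : S_GEN := by
  intro K L _ _ _ _ _
  have halg : Algebra.IsAlgebraic K (AlgebraicClosure L) := Algebra.IsAlgebraic.trans K L _
  have hcl : IsAlgClosure K (AlgebraicClosure L) := ⟨inferInstance, halg⟩
  have hnor : Normal K (AlgebraicClosure L) := IsAlgClosure.normal K _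
  let E := IntermediateField.normalClosure K L (AlgebraicClosure L)
  have hfin : FiniteDimensional K E := normalClosure.is_finiteDimensional K L (AlgebraicClosure L)
  have hNE : NumberField E := NumberField.of_module_finite K E
  have hnE : Normal K E := normalClosure.normal K L (AlgebraicClosure L)
  have hG : IsGalois K E := ⟨⟩
  refine ⟨Module.finrank K E, Module.finrank_pos, ?_⟩
  intro S D hD hm B h
  exact gen_of hDEN K L E S D hD hm B h

end Pool.Agent.U61.SD
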